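import Pool.Agent.Run7.h378.IfaceD

/-!
# MP_5766af_al: leading term calculus (helper366)
-/

noncomputable section

namespace Pool.Agent.Run7.h366.MP57

open Finset Pool.Agent.Run7.h378

section Rel

variable {D G : Type*} [DivisionRing D] [AddCommGroup G] [LinearOrder G] [IsOrderedAddMonoid G]

/-- `x` and `y` have the same leading term -/
def Ap (w : AddValuation D (WithTop G)) (x y : D) : Prop := w x < w (x - y)

variable {w : AddValuation D (WithTop G)} {x y z t : D}

lemma Ap.ne_top (h : Ap w x y) : w x ≠ ⊤ := ne_top_of_lt h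

lemma Ap.ne (h : Ap w x y) : x ≠ 0 := by
  rintro rfl
  exact h.ne_top (map_zero' )
where map_zero' : w 0 = ⊤ := w.map_zero

lemma Ap.val (h : Ap w x y) : w y = w x := by
  have h1 : w (x - y) = w (y - x) := w.map_sub_swap x y
  exact AddValuation.map_eq_of_lt_sub w (by rw [← h1]; exact h)

lemma Ap.symm (h : Ap w x y) : Ap w y x := by
  unfold Ap
  rw [h.val, w.map_sub_swap]
  exact h

lemma Ap.ne' (h : Ap w x y) : y ≠ 0 := h.symm.ne

lemma Ap.trans (h : Ap w x y) (h' : Ap w y z) : Ap w x z := by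
  unfold Ap at *
  have e : x - z = (x - y) + (y - z) := by abel
  rw [e]
  apply w.map_lt_add h
  rw [Ap.val h] at h'
  exact h'

lemma Ap.refl (h : x ≠ 0) : Ap w x x := by
  unfold Ap
  rw [sub_self, w.map_zero]
  exact lt_top_iff_ne_top.2 (w.ne_top_iff.2 h)

lemma ap_iff_left (hz : z ≠ 0) : Ap w (z * x) (z * y) ↔ Ap w x y := by
  unfold Ap
  rw [← mul_sub, w.map_mul, w.map_mul]
  exact WithTop.add_lt_add_iff_left (w.ne_top_iff.2 hz)

lemma ap_iff_right (hz : z ≠ 0) : Ap w (x * z) (y * z) ↔ Ap w x y := by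
  unfold Ap
  rw [← sub_mul, w.map_mul, w.map_mul, add_comm (w x), add_comm (w (x - y))]
  exact WithTop.add_lt_add_iff_left (w.ne_top_iff.2 hz)

lemma Ap.mul (h : Ap w x y) (h' : Ap w z t) : Ap w (x * z) (y * t) :=
  ((ap_iff_right h'.ne).2 h).trans ((ap_iff_left h.ne').2 h')

end Rel

end Pool.Agent.Run7.h366.MP57
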