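import Pool.Agent.Run7.h366.MP57.Ap

/-!
# MP_5766af_al: piece D5 (Lemma N) (helper366)
-/

noncomputable section

namespace Pool.Agent.Run7.h366.MP57

open Finset Pool.Agent.Run7.h378

section CoreLemmas

variable {K : Type} [Field K] [CharZero K] (C : Core K)

lemma g_iter_id (l : ℕ) (x : K) : (C.g l)^[2 ^ l] x = x := by
  induction l generalizing x with
  | zero => simp [C.g_zero]
  | succ l ih =>
    have e : 2 ^ (l + 1) = 2 * 2 ^ l := by ring
    have e2 : (C.g (l + 1))^[2] = (C.g l : K → K) := by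
      funext y
      exact C.g_sq l y
    rw [e, Function.iterate_mul, e2]
    exact ih x

lemma g_iter_mod (l m : ℕ) (x : K) : (C.g l)^[m] x = (C.g l)^[m % 2 ^ l] x := by
  conv_lhs => rw [← Nat.mod_add_div m (2 ^ l), Function.iterate_add_apply, Function.iterate_mul]
  have h : ∀ q, ((C.g l)^[2 ^ l])^[q] x = x := by
    intro q
    induction q with
    | zero => rfl
    | succ q ih => rw [Function.iterate_succ_apply', ih, g_iter_id]
  rw [h]

lemma v_iter (l m : ℕ) (x : K) : C.v ((C.g l)^[m] x) = C.v x := by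
  induction m with
  | zero => rfl
  | succ m ih => rw [Function.iterate_succ_apply', C.v_g, ih]

lemma ap_g {x y : K} (l m : ℕ) (h : Ap C.v x y) :
    Ap C.v ((C.g l)^[m] x) ((C.g l)^[m] y) := by
  unfold Ap
  rw [← iterate_map_sub, v_iter, v_iter]
  exact h

lemma v_exists {x : K} (hx : x ≠ 0) : ∃ n : ℤ, C.v x = (n : WithTop ℤ) := by
  obtain ⟨n, hn⟩ := WithTop.ne_top_iff_exists.1 ((C.v).ne_top_iff.2 hx)
  exact ⟨n, hn.symm⟩

/-- from the odd power to all powers -/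
lemma ap_all {κ : K} (l j : ℕ) (hl : 1 ≤ l) (hj : Odd j) (h : Ap C.v κ ((C.g l)^[j] κ)) (m : ℕ) :
    Ap C.v κ ((C.g l)^[m] κ) := by
  have h1 : ∀ q, Ap C.v κ ((C.g l)^[j * q] κ) := by
    intro q
    induction q with
    | zero => simpa using Ap.refl h.ne
    | succ q ih =>
      have e : (C.g l)^[j * (q + 1)] κ = (C.g l)^[j] ((C.g l)^[j * q] κ) := by
        rw [← Function.iterate_add_apply]
        congr 1
        ring
      rw [e]
      exact h.trans (ap_g C l j ih)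
  have hc : Nat.Coprime j (2 ^ l) := Nat.Coprime.pow_right l (Nat.coprime_two_right.2 hj)
  have h2 : 1 < 2 ^ l := Nat.one_lt_two_pow (by omega)
  obtain ⟨q, hq⟩ := Nat.exists_mul_mod_eq_one_of_coprime hc h2
  have h3 := h1 (q * m)
  rw [g_iter_mod C l (j * (q * m)), ← mul_assoc, Nat.mul_mod, hq.2, one_mul, Nat.mod_mod,
    ← g_iter_mod] at h3
  exact h3

lemma int_idx {l i j : ℕ} (hi : i < 2 ^ l) (hj : j < 2 ^ l) {n m : ℤ}
    (h : (n : ℚ) + (j : ℚ) / 2 ^ l = (m : ℚ) + (i : ℚ) / 2 ^ l) : i = j ∧ n = m := by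
  have h2 : (0 : ℚ) < 2 ^ l := by positivity
  have h3 : ((n - m) * 2 ^ l : ℚ) = (i : ℚ) - j := by
    field_simp at h
    linarith
  have h4 : (n - m) * 2 ^ l = (i : ℤ) - j := by exact_mod_cast h3
  have h5 : (i : ℤ) - j = 0 := by
    apply Int.eq_zero_of_abs_lt_dvd (m := 2 ^ l) ⟨n - m, by rw [← h4]; ring⟩
    rw [abs_lt]
    have hi' : (i : ℤ) < 2 ^ l := by exact_mod_cast hi
    have hj' : (j : ℤ) < 2 ^ l := by exact_mod_cast hj
    constructor <;> omega
  refine ⟨by omega, ?_⟩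
  rw [h5] at h4
  have h6 : (2 : ℤ) ^ l ≠ 0 := by positivity
  have := (mul_eq_zero.1 h4).resolve_right h6
  omega

end CoreLemmas

section AlgLemmas

variable {K : Type} [Field K] [CharZero K] {C : Core K} {D : Type} [DivisionRing D] (A : Alg C D)

lemma ι_ne {x : K} (hx : x ≠ 0) : A.ι x ≠ 0 := (map_ne_zero A.ι).2 hx

lemma upow_comm (l i : ℕ) (x : K) :
    A.u l ^ i * A.ι x = A.ι ((C.g l)^[i] x) * A.u l ^ i := by
  induction i generalizing x with
  | zero => simp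
  | succ i ih =>
    rw [pow_succ, mul_assoc, A.u_comm, ← mul_assoc, ih, mul_assoc, ← pow_succ,
      Function.iterate_succ_apply]

lemma w_ι_int {x : K} {n : ℤ} (h : C.v x = (n : WithTop ℤ)) :
    A.w (A.ι x) = (((n : ℚ)) : WithTop ℚ) := by
  rw [A.w_ι, h]
  rfl

lemma w_upow (l i : ℕ) : A.w (A.u l ^ i) = (((i : ℚ) / 2 ^ l : ℚ) : WithTop ℚ) := by
  induction i with
  | zero => simp
  | succ i ih =>
    rw [pow_succ, A.w.map_mul, ih, A.w_u, ← WithTop.coe_add]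
    congr 1
    push_cast
    ring

lemma val_term (l i : ℕ) {x : K} {n : ℤ} (h : C.v x = (n : WithTop ℤ)) :
    A.w (A.ι x * A.u l ^ i) = (((n : ℚ) + (i : ℚ) / 2 ^ l : ℚ) : WithTop ℚ) := by
  rw [A.w.map_mul, w_ι_int A h, w_upow, ← WithTop.coe_add]

lemma ι_ap {x y : K} : Ap A.w (A.ι x) (A.ι y) ↔ Ap C.v x y := by
  unfold Ap
  rw [← map_sub, A.w_ι, A.w_ι]
  rcases h1 : C.v x with _ | a <;> rcases h2 : C.v (x - y) with _ | b
  · exact ⟨fun h => absurd h (lt_irrefl _), fun h => absurd h (lt_irrefl _)⟩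
  · constructor
    · intro h; exact absurd h (not_lt_of_ge le_top)
    · intro h; exact absurd h (not_lt_of_ge le_top)
  · exact ⟨fun _ => WithTop.coe_lt_top _, fun _ => WithTop.coe_lt_top _⟩
  · change ((((a : ℤ) : ℚ)) : WithTop ℚ) < ((((b : ℤ) : ℚ)) : WithTop ℚ) ↔
      ((a : ℤ) : WithTop ℤ) < ((b : ℤ) : WithTop ℤ)
    rw [WithTop.coe_lt_coe, WithTop.coe_lt_coe, Int.cast_lt]

variable {A}

/-- the leading term -/
lemma lead (hB : Base A) (l : ℕ) (f : ℕ → K) (d : D)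
    (hd : d = ∑ i ∈ range (2 ^ l), A.ι (f i) * A.u l ^ i) (h0 : d ≠ 0) :
    ∃ j, j < 2 ^ l ∧ Ap A.w d (A.ι (f j) * A.u l ^ j) := by
  have hpos : 0 < 2 ^ l := by positivity
  obtain ⟨j, hj, hmin⟩ := Finset.exists_min_image (range (2 ^ l))
    (fun i => A.w (A.ι (f i) * A.u l ^ i)) ⟨0, by simpa using hpos⟩
  have hj' := mem_range.1 hj
  have h1 : A.w (A.ι (f j) * A.u l ^ j) ≤ A.w d := by
    rw [hd]
    exact A.w.map_le_sum hmin
  have h2 : A.w d ≤ A.w (A.ι (f j) * A.u l ^ j) := by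
    rw [hd]
    exact hB.sum_le l f j hj'
  have h3 : A.w d = A.w (A.ι (f j) * A.u l ^ j) := le_antisymm h2 h1
  have h4 : A.w d ≠ ⊤ := A.w.ne_top_iff.2 h0
  refine ⟨j, hj', ?_⟩
  unfold Ap
  have e : d - A.ι (f j) * A.u l ^ j = ∑ i ∈ (range (2 ^ l)).erase j, A.ι (f i) * A.u l ^ i := by
    rw [hd, ← Finset.add_sum_erase _ _ hj]
    abel
  rw [e]
  apply A.w.map_lt_sum h4
  intro i hi
  rw [mem_erase, mem_range] at hi
  rw [h3]
  refine lt_of_le_of_ne (hmin i (mem_range.2 hi.2)) ?_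
  intro heq
  have hfj : f j ≠ 0 := by
    intro h
    rw [h3, h, map_zero, zero_mul, A.w.map_zero] at h4
    exact h4 rfl
  have hfi : f i ≠ 0 := by
    intro h
    rw [h3, heq, h, map_zero, zero_mul, A.w.map_zero] at h4
    exact h4 rfl
  obtain ⟨n, hn⟩ := v_exists C hfj
  obtain ⟨m, hm⟩ := v_exists C hfi
  rw [val_term A l j hn, val_term A l i hm, WithTop.coe_inj] at heq
  exact hi.1 (int_idx hi.2 hj' heq).1

/-- the leading term of an element of integral value -/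
lemma lead_int (hB : Base A) (l : ℕ) (f : ℕ → K) (d : D)
    (hd : d = ∑ i ∈ range (2 ^ l), A.ι (f i) * A.u l ^ i) (h0 : d ≠ 0) (n : ℤ)
    (hn : A.w d = ((n : ℚ) : WithTop ℚ)) : Ap A.w d (A.ι (f 0)) := by
  obtain ⟨j, hj, h⟩ := lead hB l f d hd h0
  have hfj : f j ≠ 0 := by
    intro h'
    exact h.ne' (by rw [h', map_zero, zero_mul])
  obtain ⟨m, hm⟩ := v_exists C hfj
  have h1 := h.val
  rw [val_term A l j hm, hn, WithTop.coe_inj] at h1
  have h2 : (m : ℚ) + (j : ℚ) / 2 ^ l = (n : ℚ) + ((0 : ℕ) : ℚ) / 2 ^ l := by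
    rw [h1]; simp
  have h3 := (int_idx (by positivity) hj h2).1
  rw [← h3] at h
  simpa using h

/-- commuting with an element of value `odd / 2 ^ l` -/
lemma claim2 (hB : Base A) (l : ℕ) (hl : 1 ≤ l) (x y : D) (κ : K) (hxy : x * y = y * x)
    (hx : Ap A.w x (A.ι κ)) (hy : y ∈ A.Dl l) (n : ℤ) (hn : Odd n)
    (hwy : A.w y = (((n : ℚ) / 2 ^ l : ℚ) : WithTop ℚ)) (m : ℕ) :
    Ap C.v κ ((C.g l)^[m] κ) := by
  obtain ⟨f, hf⟩ := hy
  have hy0 : y ≠ 0 := by
    rintro rfl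
    rw [A.w.map_zero] at hwy
    exact WithTop.top_ne_coe hwy
  obtain ⟨j, hj, h⟩ := lead hB l f y hf hy0
  have hfj : f j ≠ 0 := by
    intro h'
    exact h.ne' (by rw [h', map_zero, zero_mul])
  obtain ⟨p, hp⟩ := v_exists C hfj
  have hodd : Odd j := by
    have h1 := h.val
    rw [val_term A l j hp, hwy, WithTop.coe_inj] at h1
    have h2 : (0 : ℚ) < 2 ^ l := by positivity
    have h3 : (p : ℚ) * 2 ^ l + j = n := by
      field_simp at h1
      linarith
    have h4 : p * 2 ^ l + (j : ℤ) = n := by exact_mod_cast h3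
    have h5 : Even (p * 2 ^ l) := by
      obtain ⟨k, rfl⟩ : ∃ k, l = k + 1 := ⟨l - 1, by omega⟩
      exact ⟨p * 2 ^ k, by ring⟩
    have h6 : Odd ((j : ℤ)) := by
      have : (j : ℤ) = n - p * 2 ^ l := by linarith
      rw [this]
      exact hn.sub_even h5
    exact_mod_cast h6
  have hu : A.u l ^ j ≠ 0 := pow_ne_zero _ (hB.u_ne l)
  have h1 := hx.mul h
  have h2 := h.mul hx
  rw [hxy] at h1
  have h3 := h1.symm.trans h2
  rw [mul_assoc (A.ι (f j)), upow_comm, ← mul_assoc, ← mul_assoc, ap_iff_right hu, ← map_mul,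
    mul_comm κ, map_mul, ap_iff_left (ι_ne A hfj), ι_ap] at h3
  exact ap_all C l j hl hodd h3 m

end AlgLemmas

/-- the elements of `D_l` commuting with `S ∩ D_l` -/
def NN {K : Type} [Field K] [CharZero K] {C : Core K} {D : Type} [DivisionRing D] (A : Alg C D)
    (S : Subring D) (l : ℕ) : Set D :=
  {x | x ∈ A.Dl l ∧ ∀ s ∈ S, s ∈ A.Dl l → s * x = x * s}

section NLemmas

variable {K : Type} [Field K] [CharZero K] {C : Core K} {D : Type} [DivisionRing D] {A : Alg C D}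
  {S : Subring D}

lemma NN_mul (hB : Base A) {l : ℕ} {x y : D} (hx : x ∈ NN A S l) (hy : y ∈ NN A S l) :
    x * y ∈ NN A S l :=
  ⟨hB.mul_mem l x y hx.1 hy.1, fun s hs hs' => by
    rw [← mul_assoc, hx.2 s hs hs', mul_assoc, hy.2 s hs hs', mul_assoc]⟩

lemma NN_pow (hB : Base A) {l : ℕ} {x : D} (hx : x ∈ NN A S l) (n : ℕ) :
    x ^ n ∈ NN A S l := by
  induction n with
  | zero => exact ⟨by simpa using hB.one_mem l, fun s _ _ => by simp⟩
  | succ n ih => rw [pow_succ]; exact NN_mul hB ih hx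

lemma NN_inv (hB : Base A) {l : ℕ} {x : D} (hx : x ∈ NN A S l) : x⁻¹ ∈ NN A S l :=
  ⟨hB.inv_mem l x hx.1, fun s hs hs' => by
    have h : Commute s x := hx.2 s hs hs'
    exact h.inv_right₀⟩

lemma NN_sub_ι (hB : Base A) {l : ℕ} {x : D} {y : K} (hx : x ∈ NN A S l) (hy : C.g l y = y) :
    x - A.ι y ∈ NN A S l := by
  refine ⟨?_, fun s hs hs' => ?_⟩
  · rw [sub_eq_add_neg]
    exact hB.add_mem l _ _ hx.1 (hB.neg_mem l _ (hB.ι_mem l y))
  · rw [mul_sub, sub_mul, hx.2 s hs hs', hB.cen l y hy s hs']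

end NLemmas


section Main

variable {K : Type} [Field K] [CharZero K] {T : Data K} {D : Type} [DivisionRing D]
  {A : Alg T.toCore D}

lemma v_c_all (l : ℕ) : T.v (T.c l) = 1 := by
  induction l with
  | zero => exact T.v_c
  | succ l ih =>
    rw [T.c_succ, T.v.map_mul, ih]
    have h : T.v (∏ i ∈ range (2 ^ l), (T.g l)^[i] (T.a l)) = 0 := by
      refine Finset.prod_induction _ (fun y => T.v y = 0) ?_ T.v.map_one ?_
      · intro x y hx hy
        rw [T.v.map_mul, hx, hy, add_zero]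
      · intro i _
        exact (v_iter T.toCore l i _).trans (T.v_a l)
    rw [h, zero_add]

/-- a power of an element of non integral value has value `odd / 2` -/
lemma half (hB : Base A) (l : ℕ) (x : D) (hx : x ∈ A.Dl l) (h0 : x ≠ 0)
    (hn : ¬ ∃ n : ℤ, A.w x = ((n : ℚ) : WithTop ℚ)) :
    ∃ (r : ℕ) (m : ℤ), Odd m ∧ A.w (x ^ 2 ^ r) = (((m : ℚ) / 2 : ℚ) : WithTop ℚ) := by
  classical
  obtain ⟨n, hn'⟩ := hB.val l x hx h0
  have hpow : ∀ r : ℕ, A.w (x ^ 2 ^ r) = (((2 : ℚ) ^ r * ((n : ℚ) / 2 ^ l) : ℚ) : WithTop ℚ) := by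
    intro r
    induction r with
    | zero => simpa using hn'
    | succ r ih =>
      rw [pow_succ, pow_mul, pow_two, A.w.map_mul, ih, ← WithTop.coe_add]
      congr 1
      ring
  have hex : ∃ r : ℕ, ∃ p : ℤ, A.w (x ^ 2 ^ r) = ((p : ℚ) : WithTop ℚ) := by
    refine ⟨l, n, ?_⟩
    rw [hpow]
    congr 1
    field_simp
  obtain ⟨p, hp⟩ := Nat.find_spec hex
  have hr0 : Nat.find hex ≠ 0 := by
    intro h
    rw [h] at hp
    exact hn ⟨p, by simpa using hp⟩
  obtain ⟨r, hr⟩ := Nat.exists_eq_succ_of_ne_zero hr0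
  have hmin := Nat.find_min hex (m := r) (by omega)
  rw [hr, hpow, WithTop.coe_inj, pow_succ] at hp
  refine ⟨r, p, ?_, ?_⟩
  · by_contra hodd
    rw [Int.not_odd_iff_even] at hodd
    obtain ⟨q, hq⟩ := hodd
    apply hmin
    refine ⟨q, ?_⟩
    rw [hpow, WithTop.coe_inj]
    have : (p : ℚ) = q + q := by exact_mod_cast hq
    rw [this] at hp
    linarith
  · rw [hpow, WithTop.coe_inj]
    linarith

/-- Lemma N, with residue characteristic different from two -/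
theorem lemmaN (hv2 : T.v 2 = 0) (hB : Base A) (S : Subring D) (l₀ : ℕ)
    (h1 : ∀ l, l₀ ≤ l → ∃ b ∈ S, b ≠ 0 ∧ ∃ e ∈ A.Dl l, b = e * A.u (l + 1))
    (h2 : ∀ l, l₀ ≤ l → ∀ x ∈ A.Dl (l + 1), (∀ s ∈ S, s ∈ A.Dl (l + 1) → s * x = x * s) →
      x ∈ A.Dl l) :
    ∃ l₁, ∀ l, l₁ ≤ l → ∀ x ∈ A.Dl l, (∀ s ∈ S, s ∈ A.Dl l → s * x = x * s) →
      ∃ y, T.g l y = y ∧ x = A.ι y := by
  by_contra hcon
  -- the commuting elements decrease
  have hdec1 : ∀ l, l₀ ≤ l → NN A S (l + 1) ⊆ NN A S l := by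
    intro l hl x hx
    exact ⟨h2 l hl x hx.1 hx.2, fun s hs hs' => hx.2 s hs (hB.mono l hs')⟩
  have hdec : ∀ l, l₀ ≤ l → ∀ k, NN A S (l + k) ⊆ NN A S l := by
    intro l hl k
    induction k with
    | zero => exact subset_rfl
    | succ k ih => exact (hdec1 (l + k) (by omega)).trans ih
  -- propagation of `N_l = K_l`
  have hprop : ∀ l, l₀ ≤ l → (∀ x ∈ NN A S l, ∃ y, T.g l y = y ∧ x = A.ι y) →
      ∀ x ∈ NN A S (l + 1), ∃ y, T.g (l + 1) y = y ∧ x = A.ι y := by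
    intro l hl hK x hx
    obtain ⟨y, hy, rfl⟩ := hK x (hdec1 l hl hx)
    refine ⟨y, ?_, rfl⟩
    obtain ⟨b, hbS, hb0, e, he, hbe⟩ := h1 l hl
    have hbD : b ∈ A.Dl (l + 1) := by
      rw [hbe]
      exact hB.mul_mem _ _ _ (hB.mono l he) (hB.u_mem _)
    have hcomm := hx.2 b hbS hbD
    have he0 : e ≠ 0 := by
      rintro rfl
      exact hb0 (by rw [hbe, zero_mul])
    rw [hbe, mul_assoc, A.u_comm, ← mul_assoc, ← mul_assoc, hB.cen l y hy e he] at hcomm
    have h3 := mul_right_cancel₀ (hB.u_ne (l + 1)) hcomm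
    have h4 := mul_left_cancel₀ he0 h3
    exact A.ι.injective h4
  have hstar : ∀ l, l₀ ≤ l → ∃ x ∈ NN A S l, ∀ y, T.g l y = y → x ≠ A.ι y := by
    intro l hl
    by_contra hno
    push Not at hno
    have hall : ∀ k, ∀ x ∈ NN A S (l + k), ∃ y, T.g (l + k) y = y ∧ x = A.ι y := by
      intro k
      induction k with
      | zero => exact fun x hx => hno x hx
      | succ k ih => exact hprop (l + k) (by omega) ih
    apply hcon
    refine ⟨l, fun l' hl' x hx hx' => ?_⟩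
    obtain ⟨k, rfl⟩ := Nat.exists_eq_add_of_le hl'
    exact hall k x ⟨hx, hx'⟩
  -- elements of odd value
  have hodd : ∀ k, l₀ ≤ k → ∀ x ∈ NN A S (k + 1), ∀ κ, Ap A.w x (A.ι κ) →
      ∀ m, Ap T.v κ ((T.g (k + 1))^[m] κ) := by
    intro k hk x hx κ hκ m
    obtain ⟨b, hbS, hb0, e, he, hbe⟩ := h1 k hk
    have hbD : b ∈ A.Dl (k + 1) := by
      rw [hbe]
      exact hB.mul_mem _ _ _ (hB.mono k he) (hB.u_mem _)
    have he0 : e ≠ 0 := by
      rintro rfl
      exact hb0 (by rw [hbe, zero_mul])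
    obtain ⟨n, hn, hw⟩ := hB.val_u k e he he0
    exact claim2 hB (k + 1) (by omega) x b κ (hx.2 b hbS hbD).symm hκ hbD n hn
      (by rw [hbe]; exact hw) m
  -- non integral values
  have hnonint : ∀ k, l₀ ≤ k → ∃ x ∈ NN A S (k + 1), x ≠ 0 ∧
      ¬ ∃ n : ℤ, A.w x = ((n : ℚ) : WithTop ℚ) := by
    intro k hk
    by_contra hno
    push Not at hno
    obtain ⟨x, hx, hxy⟩ := hstar (k + 1) (by omega)
    obtain ⟨f, hf⟩ := hx.1
    set l := k + 1 with hl
    set tr : K := ∑ i ∈ range (2 ^ l), (T.g l)^[i] (f 0) with htr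
    have hgtr : T.g l tr = tr := by
      rw [htr, map_sum]
      have e1 : ∑ i ∈ range (2 ^ l), T.g l ((T.g l)^[i] (f 0)) =
          ∑ i ∈ range (2 ^ l), (T.g l)^[i + 1] (f 0) :=
        Finset.sum_congr rfl fun i _ => (Function.iterate_succ_apply' _ _ _).symm
      rw [e1]
      have e2 := Finset.sum_range_succ' (fun i => (T.g l)^[i] (f 0)) (2 ^ l)
      have e3 := Finset.sum_range_succ (fun i => (T.g l)^[i] (f 0)) (2 ^ l)
      rw [g_iter_id T.toCore l] at e3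
      rw [e3] at e2
      simp only [Function.iterate_zero, id_eq] at e2
      exact (add_right_cancel e2).symm
    have h2l : ((2 : K) ^ l) ≠ 0 := pow_ne_zero _ two_ne_zero
    set y : K := tr / 2 ^ l with hy
    have hgy : T.g l y = y := by
      rw [hy, map_div₀, hgtr, map_pow, map_ofNat]
    have hx' := NN_sub_ι hB hx hgy
    have hx0 : x - A.ι y ≠ 0 := sub_ne_zero.2 (hxy y hgy)
    obtain ⟨n, hn⟩ := hno _ hx' hx0
    have hrep : x - A.ι y = ∑ i ∈ range (2 ^ l),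
        A.ι (Function.update f 0 (f 0 - y) i) * A.u l ^ i := by
      have hpos : 0 ∈ range (2 ^ l) := mem_range.2 (by positivity)
      rw [hf, ← Finset.add_sum_erase _ _ hpos, ← Finset.add_sum_erase _ _ hpos,
        Function.update_self, map_sub]
      have : ∑ i ∈ (range (2 ^ l)).erase 0, A.ι (Function.update f 0 (f 0 - y) i) * A.u l ^ i =
          ∑ i ∈ (range (2 ^ l)).erase 0, A.ι (f i) * A.u l ^ i := by
        refine Finset.sum_congr rfl fun i hi => ?_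
        rw [Function.update_of_ne (ne_of_mem_erase hi)]
      rw [this, pow_zero, mul_one, mul_one]
      abel
    have hap := lead_int hB l _ _ hrep hx0 n hn
    rw [Function.update_self] at hap
    have hall := hodd k hk _ hx' _ hap
    have hκ := (hall 0).ne
    have hsum : ∑ i ∈ range (2 ^ l), (T.g l)^[i] (f 0 - y) = 0 := by
      have e1 : ∀ i, (T.g l)^[i] y = y := by
        intro i
        induction i with
        | zero => rfl
        | succ i ih => rw [Function.iterate_succ_apply', ih, hgy]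
      simp only [iterate_map_sub, e1]
      rw [Finset.sum_sub_distrib, ← htr, Finset.sum_const, card_range, nsmul_eq_mul, hy]
      push_cast
      field_simp
      ring
    have h3 : T.v (f 0 - y) < T.v (∑ i ∈ range (2 ^ l), ((f 0 - y) - (T.g l)^[i] (f 0 - y))) :=
      T.v.map_lt_sum (T.v.ne_top_iff.2 hκ) fun i _ => hall i
    rw [Finset.sum_sub_distrib, hsum, sub_zero, Finset.sum_const, card_range, nsmul_eq_mul,
      T.v.map_mul] at h3
    push_cast at h3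
    rw [T.v.map_pow, hv2, smul_zero, zero_add] at h3
    exact lt_irrefl _ h3
  -- values in `1/2 + ℤ`
  have hhalf : ∀ k, l₀ ≤ k → ∃ x ∈ NN A S (k + 1), ∃ m : ℤ, Odd m ∧
      A.w x = (((m : ℚ) / 2 : ℚ) : WithTop ℚ) := by
    intro k hk
    obtain ⟨x, hx, hx0, hxn⟩ := hnonint k hk
    obtain ⟨r, m, hm, hw⟩ := half hB (k + 1) x hx.1 hx0 hxn
    exact ⟨x ^ 2 ^ r, NN_pow hB hx _, m, hm, hw⟩
  obtain ⟨X, hX, m, hm, hwX⟩ := hhalf l₀ le_rfl
  have hX0 : X ≠ 0 := by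
    rintro rfl
    rw [A.w.map_zero] at hwX
    exact WithTop.top_ne_coe hwX
  obtain ⟨f, hf⟩ := hX.1
  obtain ⟨j, hj, hXj⟩ := lead hB (l₀ + 1) f X hf hX0
  set lam := f j with hlam
  have hlam0 : lam ≠ 0 := by
    intro h'
    exact hXj.ne' (by rw [h', map_zero, zero_mul])
  obtain ⟨p, hp⟩ := v_exists T.toCore hlam0
  have hjm : j = 2 ^ l₀ ∧ m = 2 * p + 1 := by
    have e1 := hXj.val
    rw [val_term A (l₀ + 1) j hp, hwX, WithTop.coe_inj] at e1
    have e2 : (0 : ℚ) < 2 ^ l₀ := by positivity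
    have e3 : (j : ℚ) = (m - 2 * p) * 2 ^ l₀ := by
      rw [pow_succ] at e1
      field_simp at e1
      linarith
    have e4 : (j : ℤ) = (m - 2 * p) * 2 ^ l₀ := by exact_mod_cast e3
    have e5 : (j : ℤ) < 2 * 2 ^ l₀ := by
      have : (j : ℤ) < 2 ^ (l₀ + 1) := by exact_mod_cast hj
      rw [pow_succ] at this
      linarith
    have e6 : (0 : ℤ) < 2 ^ l₀ := by positivity
    obtain ⟨q, hq⟩ := hm
    have e7 : m - 2 * p = 1 := by
      have a1 : m - 2 * p < 2 := by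
        by_contra h
        push Not at h
        nlinarith
      have a2 : 0 ≤ m - 2 * p := by
        by_contra h
        push Not at h
        have : (j : ℤ) < 0 := by nlinarith
        omega
      omega
    constructor
    · rw [e7, one_mul] at e4
      exact_mod_cast e4
    · omega
  set h : K → K := (T.g (l₀ + 1))^[j] with hh
  set t : D := A.ι lam * A.u (l₀ + 1) ^ j with ht
  set κ : K := lam * h lam * T.c (l₀ + 1) with hκ
  have htt : t * t = A.ι κ := by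
    have e1 : t * t = A.ι lam * (A.u (l₀ + 1) ^ j * A.ι lam) * A.u (l₀ + 1) ^ j := by
      rw [ht]
      noncomm_ring
    have e2 : A.u (l₀ + 1) ^ j * A.u (l₀ + 1) ^ j = A.ι (T.c (l₀ + 1)) := by
      rw [← pow_add, ← hB.u_pow]
      congr 1
      rw [hjm.1, pow_succ]
      ring
    rw [e1, upow_comm, mul_assoc, mul_assoc (A.ι _) (A.u _ ^ j), e2, hκ, map_mul, map_mul,
      mul_assoc]
  have htρ : ∀ ρ : K, t * A.ι ρ = A.ι (h ρ) * t := by
    intro ρ
    rw [ht, mul_assoc, upow_comm, ← mul_assoc, ← mul_assoc, ← map_mul, ← map_mul,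
      mul_comm lam]
  have hvκ : T.v κ = (m : WithTop ℤ) := by
    have e1 : T.v (h lam) = T.v lam := v_iter T.toCore _ _ _
    rw [hκ, T.v.map_mul, T.v.map_mul, e1, hp, v_c_all, hjm.2]
    have : ((2 * p + 1 : ℤ) : WithTop ℤ) = (p : WithTop ℤ) + (p : WithTop ℤ) + 1 := by
      rw [two_mul]
      rfl
    rw [this]
  have hκ0 : κ ≠ 0 := by
    intro h'
    rw [h', T.v.map_zero] at hvκ
    exact WithTop.top_ne_coe hvκ
  obtain ⟨l, hl, hns⟩ := T.nsq κ m hm hvκ (l₀ + 1)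
  obtain ⟨k, rfl⟩ : ∃ k, l = k + 1 := ⟨l - 1, by omega⟩
  have hk : l₀ ≤ k := by omega
  obtain ⟨x, hx, m', hm', hwx⟩ := hhalf k hk
  have hxL : x ∈ NN A S (l₀ + 1) := by
    obtain ⟨d, hd⟩ := Nat.exists_eq_add_of_le hk
    have := hdec (l₀ + 1) (by omega) d
    apply this
    have e : l₀ + 1 + d = k + 1 := by omega
    rw [e]
    exact hx
  set z : D := x * X⁻¹ with hz
  have hzN : z ∈ NN A S (l₀ + 1) := NN_mul hB hxL (NN_inv hB hX)
  have hzX : x = z * X := by rw [hz, mul_assoc, inv_mul_cancel₀ hX0, mul_one]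
  have hx0 : x ≠ 0 := by
    rintro rfl
    rw [A.w.map_zero] at hwx
    exact WithTop.top_ne_coe hwx
  have hz0 : z ≠ 0 := mul_ne_zero hx0 (inv_ne_zero hX0)
  obtain ⟨fz, hfz⟩ := hzN.1
  obtain ⟨n, hn⟩ : ∃ n : ℤ, A.w z = ((n : ℚ) : WithTop ℚ) := by
    obtain ⟨a, ha⟩ := hm
    obtain ⟨b, hb⟩ := hm'
    refine ⟨b - a, ?_⟩
    have e1 : A.w x = A.w z + A.w X := by rw [hzX, A.w.map_mul]
    obtain ⟨q, hq⟩ := WithTop.ne_top_iff_exists.1 (A.w.ne_top_iff.2 hz0)
    rw [← hq, hwX, hwx, ← WithTop.coe_add, WithTop.coe_inj] at e1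
    rw [← hq, WithTop.coe_inj, ]
    have e2 : (m : ℚ) = 2 * a + 1 := by exact_mod_cast ha
    have e3 : (m' : ℚ) = 2 * b + 1 := by exact_mod_cast hb
    rw [e2, e3] at e1
    push_cast
    linarith
  have hzρ := lead_int hB (l₀ + 1) fz z hfz hz0 n hn
  set ρ := fz 0 with hρ
  have hρ0 : ρ ≠ 0 := by
    intro h'
    exact hzρ.ne' (by rw [h', map_zero])
  have hρj : Ap T.v ρ (h ρ) := hodd l₀ le_rfl z hzN ρ hzρ j
  have hxx : Ap A.w (x * x) (A.ι (ρ * ρ * κ)) := by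
    have e1 : Ap A.w x (A.ι ρ * t) := by
      rw [hzX]
      exact hzρ.mul hXj
    have e2 := e1.mul e1
    have e3 : A.ι ρ * t * (A.ι ρ * t) = A.ι (ρ * h ρ * κ) := by
      rw [mul_assoc, ← mul_assoc t, htρ, mul_assoc (A.ι (h ρ)), htt, ← map_mul, ← map_mul,
        ← mul_assoc]
    rw [e3] at e2
    refine e2.trans ?_
    rw [ι_ap]
    have e4 : Ap T.v (ρ * h ρ) (ρ * ρ) := (ap_iff_left hρ0).2 hρj.symm
    exact (ap_iff_right hκ0).2 e4
  have hfin := hodd k hk (x * x) (NN_mul hB hx hx) _ hxx 1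
  simp only [Function.iterate_one] at hfin
  have hgρ : T.g (k + 1) ρ ≠ 0 := (map_ne_zero _).2 hρ0
  have hvs : T.v (ρ / T.g (k + 1) ρ) = 0 := by
    obtain ⟨r, hr⟩ := v_exists T.toCore hρ0
    have e1 : T.v ρ = T.v (ρ / T.g (k + 1) ρ) + T.v ρ := by
      conv_lhs => rw [← div_mul_cancel₀ ρ hgρ, T.v.map_mul, T.v_g]
    obtain ⟨q, hq⟩ := v_exists T.toCore (div_ne_zero hρ0 hgρ)
    rw [hr, hq, ← WithTop.coe_add, WithTop.coe_inj] at e1
    rw [hq]
    have : q = 0 := by omega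
    rw [this]
    rfl
  apply hns (ρ / T.g (k + 1) ρ) hvs
  have hc0 : ((T.g (k + 1) ρ)⁻¹) ^ 2 ≠ 0 := pow_ne_zero _ (inv_ne_zero hgρ)
  have h5 := (ap_iff_left (w := T.v) hc0).2 hfin
  have e1 : ((T.g (k + 1) ρ)⁻¹) ^ 2 * (ρ * ρ * κ) = (ρ / T.g (k + 1) ρ) ^ 2 * κ := by
    field_simp
  have e2 : ((T.g (k + 1) ρ)⁻¹) ^ 2 * T.g (k + 1) (ρ * ρ * κ) = T.g (k + 1) κ := by
    rw [map_mul, map_mul]
    field_simp
  rw [e1, e2] at h5
  have h6 := h5.symm
  unfold Ap at h6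
  rw [T.v_g] at h6
  exact h6

end Main

/-- PIECE D5 -/
theorem D5 : S_N := by
  intro K _ _ T D _ A hB S l₀ h1 h2
  exact lemmaN T.v_two hB S l₀ h1 h2

end Pool.Agent.Run7.h366.MP57
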