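import Pool.Agent.Run7.h366.MP57.D5

/-!
# MP_5766af_al: piece D6 (no algebraic elements) (helper366)
-/

noncomputable section

namespace Pool.Agent.Run7.h366.MP57

open Finset Pool.Agent.Run7.h378 Polynomial

/-- the fixed field of `g l` -/
def Kl {K : Type} [Field K] [CharZero K] (C : Core K) (l : ℕ) : Subfield K where
  carrier := {x | C.g l x = x}
  mul_mem' := fun {a b} ha hb => by
    change C.g l (a * b) = a * b
    rw [map_mul]; rw [Set.mem_setOf_eq] at ha hb; rw [ha, hb]
  one_mem' := map_one _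
  add_mem' := fun {a b} ha hb => by
    change C.g l (a + b) = a + b
    rw [map_add]; rw [Set.mem_setOf_eq] at ha hb; rw [ha, hb]
  zero_mem' := map_zero _
  neg_mem' := fun {a} ha => by
    change C.g l (-a) = -a
    rw [map_neg]; change C.g l a = a at ha; rw [ha]
  inv_mem' := fun a ha => by
    change C.g l (a⁻¹) = a⁻¹
    rw [map_inv₀]; change C.g l a = a at ha; rw [ha]

lemma fix_le {K : Type} [Field K] [CharZero K] (C : Core K) (l : ℕ) : fix C.g ≤ Kl C l :=
  fun _ hx => hx l

lemma mem_acl_of_isAlgebraic {K : Type} [Field K] (F : Subfield K) {y : K}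
    (h : IsAlgebraic F y) : y ∈ acl (F : Set K) := by
  unfold acl
  rw [Set.mem_setOf_eq, Subfield.closure_eq]
  exact h

/-- the `D_l` as subrings -/
def DlR {K : Type} [Field K] [CharZero K] {C : Core K} {D : Type} [DivisionRing D] {A : Alg C D}
    (hB : Base A) (l : ℕ) : Subring D where
  carrier := A.Dl l
  mul_mem' := fun ha hb => hB.mul_mem l _ _ ha hb
  one_mem' := hB.one_mem l
  add_mem' := fun ha hb => hB.add_mem l _ _ ha hb
  zero_mem' := hB.zero_mem l
  neg_mem' := fun ha => hB.neg_mem l _ ha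

lemma tele {D : Type} [Ring D] (θ θ' y : D) (k : ℕ) :
    θ * (∑ i ∈ range k, θ ^ i * y * θ' ^ (k - 1 - i)) -
      (∑ i ∈ range k, θ ^ i * y * θ' ^ (k - 1 - i)) * θ' = θ ^ k * y - y * θ' ^ k := by
  induction k with
  | zero => simp
  | succ k ih =>
    have e : ∑ i ∈ range (k + 1), θ ^ i * y * θ' ^ (k + 1 - 1 - i) =
        (∑ i ∈ range k, θ ^ i * y * θ' ^ (k - 1 - i)) * θ' + θ ^ k * y := by
      rw [Finset.sum_range_succ, Finset.sum_mul]
      congr 1
      · refine Finset.sum_congr rfl fun i hi => ?_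
        rw [mem_range] at hi
        have e0 : θ' ^ (k + 1 - 1 - i) = θ' ^ (k - 1 - i) * θ' := by
          rw [← pow_succ]
          congr 1
          omega
        rw [e0, ← mul_assoc]
      · simp
    rw [e]
    set G := ∑ i ∈ range k, θ ^ i * y * θ' ^ (k - 1 - i) with hG
    have e2 : θ * (G * θ' + θ ^ k * y) - (G * θ' + θ ^ k * y) * θ' =
        (θ * G - G * θ') * θ' + θ * θ ^ k * y - θ ^ k * y * θ' := by noncomm_ring
    rw [e2, ih, pow_succ' θ, pow_succ θ']
    noncomm_ring

section

variable {K : Type} [Field K] [CharZero K] {T : Data K} {D : Type} [DivisionRing D]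
  {A : Alg T.toCore D}

/-- evaluation at `θ ∈ D_l` of polynomials over `K_l` -/
def ev (hB : Base A) {l : ℕ} {θ : D} (hθ : θ ∈ A.Dl l) : (Kl T.toCore l)[X] →+* D :=
  eval₂RingHom' ((A.ι).comp (Kl T.toCore l).subtype) θ (fun a => hB.cen l a a.2 θ hθ)

lemma ev_apply (hB : Base A) {l : ℕ} {θ : D} (hθ : θ ∈ A.Dl l) (p : (Kl T.toCore l)[X]) :
    ev hB hθ p = ∑ i ∈ range (p.natDegree + 1), A.ι (p.coeff i) * θ ^ i := by
  change eval₂ _ θ p = _
  rw [eval₂_eq_sum_range]
  rfl

/-- a monic polynomial over `F` generating the annihilator of `θ` over `K_l` -/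
lemma exists_minpoly (hB : Base A) {l : ℕ} {θ : D} (hθ : θ ∈ A.Dl l) (n : ℕ) (c : ℕ → K)
    (hc : ∀ i, c i ∈ fix T.g) (hcn : c n ≠ 0)
    (hrel : ∑ i ∈ range (n + 1), A.ι (c i) * θ ^ i = 0) :
    ∃ p : (Kl T.toCore l)[X], p.Monic ∧ ev hB hθ p = 0 ∧ (∀ r, ev hB hθ r = 0 → p ∣ r) ∧
      ∀ i, (p.coeff i : K) ∈ fix T.g := by
  classical
  set F := fix T.g with hF
  -- the given polynomial over `F`
  set q₀ : F[X] := ∑ i ∈ range (n + 1), monomial i ⟨c i, hc i⟩ with hq₀
  have hq₀c : q₀.coeff n = ⟨c n, hc n⟩ := by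
    rw [hq₀, finset_sum_coeff, Finset.sum_eq_single n]
    · simp
    · intro b _ hb
      rw [coeff_monomial, if_neg hb]
    · intro h
      exact absurd (mem_range.2 (Nat.lt_succ_self n)) h
  have hq₀0 : q₀ ≠ 0 := by
    intro h
    rw [h, coeff_zero] at hq₀c
    exact hcn (congrArg Subtype.val hq₀c).symm
  set q : F[X] := q₀ * C (leadingCoeff q₀)⁻¹ with hq
  have hqm : q.Monic := monic_mul_leadingCoeff_inv hq₀0
  set j : F →+* Kl T.toCore l := Subfield.inclusion (fix_le T.toCore l) with hj
  have hevq : ev hB hθ (q.map j) = 0 := by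
    rw [hq, Polynomial.map_mul, map_mul]
    have e : ev hB hθ (q₀.map j) = 0 := by
      change eval₂ _ θ (q₀.map j) = 0
      rw [eval₂_map, hq₀, eval₂_finset_sum]
      rw [← hrel]
      refine Finset.sum_congr rfl fun i _ => ?_
      rw [eval₂_monomial]
      rfl
    rw [e, zero_mul]
  -- generator
  set I := RingHom.ker (ev hB hθ) with hI
  set p₀ := Submodule.IsPrincipal.generator I with hp₀
  have hqI : q.map j ∈ I := by rw [hI, RingHom.mem_ker]; exact hevq
  have hq0 : q.map j ≠ 0 := (hqm.map j).ne_zero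
  have hp₀0 : p₀ ≠ 0 := by
    intro h
    have := (Submodule.IsPrincipal.eq_bot_iff_generator_eq_zero I).2 h
    rw [this] at hqI
    exact hq0 (by simpa using hqI)
  have hp₀I : p₀ ∈ I := Submodule.IsPrincipal.generator_mem I
  refine ⟨p₀ * C (leadingCoeff p₀)⁻¹, monic_mul_leadingCoeff_inv hp₀0, ?_, ?_, ?_⟩
  · rw [map_mul]
    rw [hI, RingHom.mem_ker] at hp₀I
    rw [hp₀I, zero_mul]
  · intro r hr
    have hr' : r ∈ I := by rw [hI, RingHom.mem_ker]; exact hr
    have h1 : p₀ ∣ r := (Submodule.IsPrincipal.mem_iff_generator_dvd I).1 hr'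
    have hu : IsUnit (C (leadingCoeff p₀)⁻¹ : (Kl T.toCore l)[X]) := by
      rw [Polynomial.isUnit_C]
      exact (inv_ne_zero (leadingCoeff_ne_zero.2 hp₀0)).isUnit
    exact (hu.mul_right_dvd).2 h1
  · intro i
    set p := p₀ * C (leadingCoeff p₀)⁻¹ with hp
    have hu : IsUnit (C (leadingCoeff p₀)⁻¹ : (Kl T.toCore l)[X]) := by
      rw [Polynomial.isUnit_C]
      exact (inv_ne_zero (leadingCoeff_ne_zero.2 hp₀0)).isUnit
    have hpm : p.Monic := monic_mul_leadingCoeff_inv hp₀0
    have hdvd : p ∣ q.map j :=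
      (hu.mul_right_dvd).2 ((Submodule.IsPrincipal.mem_iff_generator_dvd I).1 hqI)
    have hdvd2 : p.map (Kl T.toCore l).subtype ∣ q.map (algebraMap F K) := by
      have h1 := Polynomial.map_dvd (Kl T.toCore l).subtype hdvd
      rw [Polynomial.map_map] at h1
      exact h1
    have h2 := Polynomial.isIntegral_coeff_of_dvd q (p.map (Kl T.toCore l).subtype) hqm
      (hpm.map _) hdvd2 i
    rw [coeff_map] at h2
    have h3 := mem_acl_of_isAlgebraic F h2.isAlgebraic
    exact T.acl_F _ h3

end

/-- PIECE D6 -/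
theorem D6 : S_E := by
  classical
  intro K _ _ T D _ A hB hE hart hN θ n c hc hcn hrel
  obtain ⟨l₀, hl₀⟩ := hB.exh θ
  have hmono : ∀ k, A.Dl l₀ ⊆ A.Dl (l₀ + k) := by
    intro k
    induction k with
    | zero => exact subset_rfl
    | succ k ih => exact ih.trans (hB.mono _)
  have hθ : ∀ l, l₀ ≤ l → θ ∈ A.Dl l := by
    intro l hl
    obtain ⟨k, rfl⟩ := Nat.exists_eq_add_of_le hl
    exact hmono k hl₀
  set S : Subring D := Subring.centralizer {θ} with hS
  have hmemS : ∀ x, x ∈ S ↔ θ * x = x * θ := by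
    intro x
    rw [hS, Subring.mem_centralizer_iff]
    simp
  -- the second condition
  have h2 : ∀ l, l₀ ≤ l → ∀ x ∈ A.Dl (l + 1),
      (∀ s ∈ S, s ∈ A.Dl (l + 1) → s * x = x * s) → x ∈ A.Dl l := by
    intro l hl x hx hcomm
    obtain ⟨t, htM, hgt, htF⟩ := hE.exists_Z l
    obtain ⟨d₀, hd₀, d₁, hd₁, rfl⟩ := hB.split l x hx
    have htS : A.ι t ∈ S := (hmemS _).2 (hB.cen l t hgt θ (hθ l hl)).symm
    have h3 := hcomm _ htS (hB.ι_mem (l + 1) t)
    have hgt' : T.g (l + 1) t ≠ t := by
      intro h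
      apply T.free l t htM htF
      rw [h]
      exact mem_acl_of_isAlgebraic (T.M l) (isAlgebraic_algebraMap (⟨t, htM⟩ : T.M l))
    have h4 : d₁ * (A.ι t - A.ι (T.g (l + 1) t)) * A.u (l + 1) = 0 := by
      have e1 : A.ι t * (d₀ + d₁ * A.u (l + 1)) =
          d₀ * A.ι t + d₁ * A.ι t * A.u (l + 1) := by
        rw [mul_add, hB.cen l t hgt d₀ hd₀, ← mul_assoc, hB.cen l t hgt d₁ hd₁]
      have e2 : (d₀ + d₁ * A.u (l + 1)) * A.ι t =
          d₀ * A.ι t + d₁ * A.ι (T.g (l + 1) t) * A.u (l + 1) := by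
        rw [add_mul, mul_assoc d₁, A.u_comm, ← mul_assoc]
      rw [e1, e2] at h3
      have h5 := add_left_cancel h3
      rw [mul_sub, sub_mul, h5, sub_self]
    have h5 : d₁ = 0 := by
      rcases mul_eq_zero.1 h4 with h | h
      · rcases mul_eq_zero.1 h with h | h
        · exact h
        · rw [← map_sub, map_eq_zero] at h
          exact absurd (sub_eq_zero.1 h).symm hgt'
      · exact absurd h (hB.u_ne _)
    rw [h5, zero_mul, add_zero]
    exact hd₀
  -- the first condition
  have h1 : ∀ l, l₀ ≤ l → ∃ b ∈ S, b ≠ 0 ∧ ∃ e ∈ A.Dl l, b = e * A.u (l + 1) := by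
    intro l hl
    have hθl := hθ l hl
    obtain ⟨p, hpm, hp0, hpdvd, hpF⟩ := exists_minpoly hB hθl n c hc hcn hrel
    set m := p.natDegree with hm
    have hm0 : m ≠ 0 := by
      intro h
      have : p = 1 := by
        rw [Polynomial.eq_C_of_natDegree_eq_zero (hm ▸ h : p.natDegree = 0)]
        have h6 : p.coeff 0 = 1 := by
          have := hpm.coeff_natDegree
          rwa [← hm, h] at this
        rw [h6, C_1]
      rw [this, map_one] at hp0
      exact one_ne_zero hp0
    set u := A.u (l + 1) with hu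
    have hu0 : u ≠ 0 := hB.u_ne _
    set θ' := u * θ * u⁻¹ with hθ'
    have hθ'D : θ' ∈ A.Dl l := hB.conj l θ hθl
    have huθ : u * θ = θ' * u := by
      rw [hθ', mul_assoc, inv_mul_cancel₀ hu0, mul_one]
    set P : ℕ → D := fun k => A.ι (p.coeff k) with hP
    have hPu : ∀ k, u * P k = P k * u := by
      intro k
      rw [hP]
      change A.u (l + 1) * A.ι _ = _
      rw [A.u_comm]
      have := hpF k (l + 1)
      rw [this]
    have hpθ : ∑ k ∈ range (m + 1), P k * θ ^ k = 0 := by
      rw [← hp0, ev_apply]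
    have hpθ' : ∑ k ∈ range (m + 1), P k * θ' ^ k = 0 := by
      have e1 : ∀ k, θ' ^ k * u = u * θ ^ k := by
        intro k
        induction k with
        | zero => simp
        | succ k ih => rw [pow_succ, mul_assoc, ← huθ, ← mul_assoc, ih, mul_assoc, ← pow_succ]
      have e2 : (∑ k ∈ range (m + 1), P k * θ' ^ k) * u =
          u * ∑ k ∈ range (m + 1), P k * θ ^ k := by
        rw [Finset.sum_mul, Finset.mul_sum]
        refine Finset.sum_congr rfl fun k _ => ?_
        rw [mul_assoc, e1, ← mul_assoc, ← mul_assoc, hPu]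
      rw [hpθ, mul_zero] at e2
      exact (mul_eq_zero.1 e2).resolve_right hu0
    have hPcen : ∀ k, ∀ d ∈ A.Dl l, P k * d = d * P k := fun k d hd =>
      hB.cen l _ (hpF k l) d hd
    -- the coefficients
    set cc : ℕ → D := fun j => ∑ k ∈ range (m + 1),
      if j < k then P k * θ' ^ (k - 1 - j) else 0 with hcc
    have hpowD : ∀ d ∈ A.Dl l, ∀ k : ℕ, d ^ k ∈ A.Dl l := fun d hd k =>
      (DlR hB l).pow_mem (x := d) hd k
    have hccD : ∀ j, cc j ∈ A.Dl l := by
      intro j
      refine (DlR hB l).sum_mem fun k _ => ?_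
      split_ifs
      · exact (DlR hB l).mul_mem (hB.ι_mem l _) (hpowD θ' hθ'D _)
      · exact hB.zero_mem l
    -- the map `e`
    have he : ∀ y ∈ A.Dl l, ∑ j ∈ range m, θ ^ j * y * cc j =
        ∑ k ∈ range (m + 1), P k * ∑ i ∈ range k, θ ^ i * y * θ' ^ (k - 1 - i) := by
      intro y hy
      have e1 : ∀ j, θ ^ j * y * cc j = ∑ k ∈ range (m + 1),
          if j < k then P k * (θ ^ j * y * θ' ^ (k - 1 - j)) else 0 := by
        intro j
        rw [hcc]
        simp only []
        rw [Finset.mul_sum]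
        refine Finset.sum_congr rfl fun k _ => ?_
        split_ifs
        · rw [← mul_assoc, ← hPcen k _ (hB.mul_mem l _ _ (hpowD θ hθl j) hy), mul_assoc]
        · rw [mul_zero]
      rw [Finset.sum_congr rfl fun j _ => e1 j, Finset.sum_comm]
      refine Finset.sum_congr rfl fun k hk => ?_
      rw [mem_range] at hk
      rw [Finset.mul_sum, ← Finset.sum_filter]
      refine Finset.sum_congr ?_ fun _ _ => rfl
      ext i
      simp only [mem_filter, mem_range]
      omega
    have hθe : ∀ y ∈ A.Dl l, θ * (∑ j ∈ range m, θ ^ j * y * cc j) =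
        (∑ j ∈ range m, θ ^ j * y * cc j) * θ' := by
      intro y hy
      rw [he y hy, ← sub_eq_zero, Finset.mul_sum, Finset.sum_mul, ← Finset.sum_sub_distrib]
      have e1 : ∀ k, θ * (P k * ∑ i ∈ range k, θ ^ i * y * θ' ^ (k - 1 - i)) -
          P k * (∑ i ∈ range k, θ ^ i * y * θ' ^ (k - 1 - i)) * θ' =
          P k * θ ^ k * y - y * (P k * θ' ^ k) := by
        intro k
        have e2 : θ * (P k * ∑ i ∈ range k, θ ^ i * y * θ' ^ (k - 1 - i)) =
            P k * (θ * ∑ i ∈ range k, θ ^ i * y * θ' ^ (k - 1 - i)) := by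
          rw [← mul_assoc, ← hPcen k θ hθl, mul_assoc]
        rw [e2, mul_assoc, ← mul_sub, tele, mul_sub, ← mul_assoc, ← mul_assoc (P k) y,
          hPcen k y hy, mul_assoc y]
      rw [Finset.sum_congr rfl fun k _ => e1 k, Finset.sum_sub_distrib, ← Finset.sum_mul,
        ← Finset.mul_sum, hpθ, hpθ', zero_mul, mul_zero, sub_zero]
    -- some value is not zero
    have hex : ∃ y ∈ A.Dl l, ∑ j ∈ range m, θ ^ j * y * cc j ≠ 0 := by
      by_contra hno
      push Not at hno
      have hinv : ∀ x ∈ DlR hB l, x⁻¹ ∈ DlR hB l := fun x hx => hB.inv_mem l x hx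
      have key := hart D (DlR hB l) hinv m (fun j : Fin m => θ ^ (j : ℕ))
        (fun j => hpowD θ hθl _) ?_ (fun j : Fin m => cc j) (fun j => hccD _) ?_
      · have h3 := congrFun key ⟨m - 1, by omega⟩
        simp only [Pi.zero_apply] at h3
        have h4 : cc (m - 1) = 1 := by
          rw [hcc]
          simp only []
          rw [Finset.sum_eq_single m]
          · rw [if_pos (by omega), show m - 1 - (m - 1) = 0 by omega, pow_zero, mul_one, hP]
            simp only []
            have h6 : p.coeff m = 1 := hpm.coeff_natDegree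
            rw [h6]
            simp
          · intro b hb hbm
            rw [mem_range] at hb
            rw [if_neg (by omega)]
          · intro h
            exact absurd (mem_range.2 (Nat.lt_succ_self m)) h
        rw [h4] at h3
        exact one_ne_zero h3
      · intro c' hc'D hc'cen hsum
        have hx : ∀ j, ∃ x, T.g l x = x ∧ c' j = A.ι x := fun j =>
          hE.cen l (c' j) (hc'D j) fun e he => hc'cen j e (hE.sub l he)
        choose x hgx hx using hx
        set xx : Fin m → Kl T.toCore l := fun j => ⟨x j, show x j ∈ Kl T.toCore l from hgx j⟩ with hxx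
        set r : (Kl T.toCore l)[X] := ∑ j : Fin m, C (xx j) * X ^ (j : ℕ) with hr
        have hr0 : ev hB hθl r = 0 := by
          rw [hr, map_sum, ← hsum]
          refine Finset.sum_congr rfl fun j _ => ?_
          change eval₂ _ θ _ = _
          rw [C_mul_X_pow_eq_monomial, eval₂_monomial, hx]
          rfl
        have hdeg : r.degree < p.degree := by
          rw [Polynomial.degree_eq_natDegree hpm.ne_zero, ← hm, hr]
          exact Polynomial.degree_sum_fin_lt xx
        have hr0' : r = 0 := by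
          by_contra hne
          exact absurd (Polynomial.degree_le_of_dvd (hpdvd r hr0) hne) (not_le.2 hdeg)
        funext j
        have h3 : r.coeff (j : ℕ) = xx j := by
          rw [hr, finset_sum_coeff, Finset.sum_eq_single j]
          · simp
          · intro b _ hb
            rw [coeff_C_mul_X_pow, if_neg]
            intro h
            exact hb (Fin.ext h.symm)
          · intro h
            exact absurd (Finset.mem_univ j) h
        rw [hr0', coeff_zero] at h3
        have h4 : x j = 0 := (congrArg Subtype.val h3).symm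
        rw [hx, h4, map_zero]
        rfl
      · intro y hy
        rw [← hno y hy, Finset.sum_range]
    obtain ⟨y, hy, hne⟩ := hex
    refine ⟨(∑ j ∈ range m, θ ^ j * y * cc j) * u, ?_, mul_ne_zero hne hu0,
      ∑ j ∈ range m, θ ^ j * y * cc j, ?_, rfl⟩
    · rw [hmemS, ← mul_assoc, hθe y hy, mul_assoc, ← huθ, mul_assoc]
    · refine (DlR hB l).sum_mem fun j _ => ?_
      exact (DlR hB l).mul_mem ((DlR hB l).mul_mem (hpowD θ hθl j) hy) (hccD j)
  -- conclusion
  obtain ⟨l₁, hl₁⟩ := hN K T D A hB S l₀ h1 h2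
  obtain ⟨y, -, hy⟩ := hl₁ (max l₀ l₁) (le_max_right _ _) θ (hθ _ (le_max_left _ _))
    fun s hs _ => ((hmemS s).1 hs).symm
  refine ⟨y, ?_, hy⟩
  apply T.acl_F
  apply mem_acl_of_isAlgebraic
  refine ⟨∑ i ∈ range (n + 1), monomial i ⟨c i, hc i⟩, ?_, ?_⟩
  · intro h
    have h3 := congrArg (fun q => Polynomial.coeff q n) h
    simp only [finset_sum_coeff, coeff_zero] at h3
    rw [Finset.sum_eq_single n] at h3
    · simp only [coeff_monomial, if_true] at h3
      exact hcn (congrArg Subtype.val h3)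
    · intro b _ hb
      rw [coeff_monomial, if_neg hb]
    · intro h
      exact absurd (mem_range.2 (Nat.lt_succ_self n)) h
  · rw [map_sum]
    apply A.ι.injective
    rw [map_zero, map_sum, ← hrel]
    refine Finset.sum_congr rfl fun i _ => ?_
    rw [aeval_monomial, map_mul, map_pow, hy]
    rfl

end Pool.Agent.Run7.h366.MP57
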